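import Mathlib
import Pool.Agent.P8H29.SE.Asm

/-! # The additive energy of a ball in `SL(2, ℤ)` is at most `N ^ (4 + ε)` -/

set_option autoImplicit false

namespace Pool.Agent.Results.MP_41f261_nt.EnergyBound

open Matrix

/-- the Euclidean norm of an integral two by two matrix -/
noncomputable def size (A : Matrix (Fin 2) (Fin 2) ℤ) : ℝ :=
  Real.sqrt ((A 0 0 : ℝ) ^ 2 + (A 0 1 : ℝ) ^ 2 + (A 1 0 : ℝ) ^ 2 + (A 1 1 : ℝ) ^ 2)

/-- the ball of radius `N` in `SL(2, ℤ)` -/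
def ball (N : ℝ) : Set (SpecialLinearGroup (Fin 2) ℤ) :=
  {γ | size (γ : Matrix (Fin 2) (Fin 2) ℤ) ≤ N}

/-- the ordered quadruples counted by the additive energy of the ball of radius `N` -/
def quads (N : ℝ) : Set (SpecialLinearGroup (Fin 2) ℤ × SpecialLinearGroup (Fin 2) ℤ ×
    SpecialLinearGroup (Fin 2) ℤ × SpecialLinearGroup (Fin 2) ℤ) :=
  {g | g.1 ∈ ball N ∧ g.2.1 ∈ ball N ∧ g.2.2.1 ∈ ball N ∧ g.2.2.2 ∈ ball N ∧
    (g.1 : Matrix (Fin 2) (Fin 2) ℤ) + (g.2.1 : Matrix (Fin 2) (Fin 2) ℤ) =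
      (g.2.2.1 : Matrix (Fin 2) (Fin 2) ℤ) + (g.2.2.2 : Matrix (Fin 2) (Fin 2) ℤ)}

/-- the additive energy of the ball of radius `N` -/
noncomputable def energy (N : ℝ) : ℕ := (quads N).ncard

theorem entry_le {N : ℝ} {A : Matrix (Fin 2) (Fin 2) ℤ} (h : size A ≤ N) (i j : Fin 2) :
    |A i j| ≤ (⌊N⌋₊ : ℤ) := by
  have h0 : 0 ≤ N := (Real.sqrt_nonneg _).trans h
  have h1 : |(A i j : ℝ)| ≤ N := by
    refine le_trans ?_ h
    rw [← Real.sqrt_sq_eq_abs]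
    apply Real.sqrt_le_sqrt
    fin_cases i <;> fin_cases j <;> simp only [Fin.zero_eta, Fin.mk_one, Fin.isValue] <;>
      nlinarith [sq_nonneg (A 0 0 : ℝ), sq_nonneg (A 0 1 : ℝ), sq_nonneg (A 1 0 : ℝ),
        sq_nonneg (A 1 1 : ℝ)]
  have h2 : ((A i j).natAbs : ℝ) ≤ N := by
    rw [Nat.cast_natAbs]
    push_cast
    exact h1
  have h3 : (A i j).natAbs ≤ ⌊N⌋₊ := Nat.le_floor h2
  rw [Int.abs_eq_natAbs]
  exact_mod_cast h3

/-- the four underlying matrices -/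
def cast4 (g : SpecialLinearGroup (Fin 2) ℤ × SpecialLinearGroup (Fin 2) ℤ ×
    SpecialLinearGroup (Fin 2) ℤ × SpecialLinearGroup (Fin 2) ℤ) :
    Matrix (Fin 2) (Fin 2) ℤ × Matrix (Fin 2) (Fin 2) ℤ × Matrix (Fin 2) (Fin 2) ℤ ×
      Matrix (Fin 2) (Fin 2) ℤ :=
  (g.1.1, g.2.1.1, g.2.2.1.1, g.2.2.2.1)

theorem cast4_inj : Function.Injective cast4 := by
  rintro ⟨a, b, c, d⟩ ⟨a', b', c', d'⟩ h
  unfold cast4 at h
  simp only [Prod.mk.injEq] at h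
  obtain ⟨h1, h2, h3, h4⟩ := h
  rw [Subtype.ext h1, Subtype.ext h2, Subtype.ext h3, Subtype.ext h4]

theorem cast4_qd {N : ℝ} {g : SpecialLinearGroup (Fin 2) ℤ × SpecialLinearGroup (Fin 2) ℤ ×
    SpecialLinearGroup (Fin 2) ℤ × SpecialLinearGroup (Fin 2) ℤ} (hg : g ∈ quads N) :
    P8H29.SE.Qd ⌊N⌋₊ (cast4 g) :=
  ⟨g.1.2, g.2.1.2, g.2.2.1.2, g.2.2.2.2, fun i j => ⟨entry_le hg.1 i j, entry_le hg.2.1 i j,
    entry_le hg.2.2.1 i j, entry_le hg.2.2.2.1 i j⟩, hg.2.2.2.2⟩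

theorem box_finite (n : ℕ) :
    {A : Matrix (Fin 2) (Fin 2) ℤ | ∀ i j, |A i j| ≤ (n : ℤ)}.Finite := by
  have h1 : ({v : ℤ × ℤ × ℤ × ℤ | v ∈ Set.Icc (-(n : ℤ), -(n : ℤ), -(n : ℤ), -(n : ℤ))
      ((n : ℤ), (n : ℤ), (n : ℤ), (n : ℤ))}).Finite := Set.finite_Icc _ _
  have h2 : Function.Injective fun A : Matrix (Fin 2) (Fin 2) ℤ =>
      (A 0 0, A 0 1, A 1 0, A 1 1) := by
    intro A B h
    simp only [Prod.mk.injEq] at h
    ext i j
    fin_cases i <;> fin_cases j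
    · exact h.1
    · exact h.2.1
    · exact h.2.2.1
    · exact h.2.2.2
  refine (h1.preimage h2.injOn).subset ?_
  intro A hA
  rw [Set.mem_preimage, Set.mem_ofPred_eq, Set.mem_Icc]
  have h3 : ∀ i j, -(n : ℤ) ≤ A i j ∧ A i j ≤ n := fun i j => abs_le.1 (hA i j)
  exact ⟨⟨(h3 0 0).1, (h3 0 1).1, (h3 1 0).1, (h3 1 1).1⟩,
    ⟨(h3 0 0).2, (h3 0 1).2, (h3 1 0).2, (h3 1 1).2⟩⟩

theorem image_finite (N : ℝ) : (cast4 '' quads N).Finite := by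
  have h := box_finite ⌊N⌋₊
  refine (h.prod (h.prod (h.prod h))).subset ?_
  rintro _ ⟨g, hg, rfl⟩
  have h1 := (cast4_qd hg).2.2.2.2.1
  exact ⟨fun i j => (h1 i j).1, fun i j => (h1 i j).2.1, fun i j => (h1 i j).2.2.1,
    fun i j => (h1 i j).2.2.2⟩

/-- **The additive energy of the ball of radius `N` in `SL(2, ℤ)` is `O_ε(N ^ (4 + ε))`.** -/
theorem result : ∀ ε : ℝ, 0 < ε → ∃ C : ℝ, 0 < C ∧ ∀ N : ℝ, 1 ≤ N →
    (quads N).Finite ∧ (energy N : ℝ) ≤ C * N ^ (4 + ε) := by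
  intro ε hε
  obtain ⟨C, hC, h⟩ := P8H29.SE.energy_fin ε hε
  refine ⟨C, hC, ?_⟩
  intro N hN
  have hfin : (quads N).Finite := (image_finite N).of_finite_image cast4_inj.injOn
  refine ⟨hfin, ?_⟩
  have hn : 1 ≤ ⌊N⌋₊ := by
    rw [Nat.one_le_floor_iff]
    exact hN
  have h1 := h ⌊N⌋₊ hn (image_finite N).toFinset (by
    intro x hx
    rw [Set.Finite.mem_toFinset] at hx
    obtain ⟨g, hg, rfl⟩ := hx
    exact cast4_qd hg)
  have h2 : (image_finite N).toFinset.card = energy N := by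
    unfold energy
    rw [← Set.ncard_image_of_injective _ cast4_inj, Set.ncard_eq_toFinset_card _ (image_finite N)]
  rw [h2] at h1
  refine h1.trans (mul_le_mul_of_nonneg_left ?_ hC.le)
  apply Real.rpow_le_rpow (by positivity) (Nat.floor_le (by linarith)) (by positivity)

end Pool.Agent.Results.MP_41f261_nt.EnergyBound
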